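import Pool.Agent.H78.S.Targets

/-!
# Theorem S (MP_9d0bb7_lc), row LIM: every line comes from a homomorphism of the ring
-/

set_option autoImplicit false

open Set Pool.Agent.H77.BC Pool.Agent.H78.S
open scoped Pointwise

namespace Pool.Agent.H52.S

theorem pf_LIM (hCTB : T_CTB) : T_LIM := by
  intro M U G S _ _ _ _ _ _ hact H X T o e hC R _ j hR E L
  have hctb := hCTB U hact H X T o e hC
  have hoX : o ∈ X := hctb.1
  have hTH : T ≤ H := hctb.2.2.2.2.2.2.1
  have hTo : ∀ t ∈ T, t • o = o := hctb.2.2.2.2.2.2.2.1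
  have hHX : ∀ h ∈ H, ∀ y ∈ X, h • y ∈ X := hctb.2.2.2.2.2.2.2.2.1
  have heX : e ∈ X := hC.mem
  have hl := L.line
  choose yv hyX hyj using hR.onto
  have hyu : ∀ y ∈ X, yv (j y) = y := fun y hy => hR.inj (hyX _) hy (hyj _)
  have hF : ∀ y ∈ X, ∀ r, j y = r → L.f y = L.f (yv r) := by
    intro y hy r hr
    rw [← hr, hyu y hy]
  -- translations
  have htr : ∀ b : R, ∃ h ∈ H, ∀ y ∈ X, j (h • y) = j y + b := by
    intro b
    obtain ⟨h, hh, hj⟩ := hR.full 1 b
    refine ⟨h, hh, fun y hy => ?_⟩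
    rw [hj y hy, Units.val_one, one_mul]
  choose hb hbH hbj using htr
  have hcomm : ∀ b c : R, ∀ y ∈ X, hb b • hb c • y = hb c • hb b • y := by
    intro b c y hy
    have h1 := hHX _ (hbH c) y hy
    have h2 := hHX _ (hbH b) y hy
    refine hR.inj (hHX _ (hbH b) _ h1) (hHX _ (hbH c) _ h2) ?_
    rw [hbj b _ h1, hbj c y hy, hbj c _ h2, hbj b y hy]
    ring
  have htrans : ∀ y ∈ X, ∀ z ∈ X, hb (j z - j y) • y = z := by
    intro y hy z hz
    refine hR.inj (hHX _ (hbH _) y hy) hz ?_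
    rw [hbj _ y hy]
    ring
  have hone : ∀ b : R, ∃ β : L.K, ∀ y ∈ X, L.f (hb b • y) = L.f y + β := by
    intro b
    obtain ⟨α, β, hα, hab⟩ := hl.act _ (hbH b)
    by_cases h1 : α = 1
    · exact ⟨β, fun y hy => by rw [hab y hy, h1, one_mul]⟩
    · exfalso
      have h1' : (1 : L.K) - α ≠ 0 := fun h => h1 (sub_eq_zero.1 h).symm
      obtain ⟨y0, hy0, hk0⟩ := hl.onto (β / (1 - α))
      have hfix : L.f (hb b • y0) = L.f y0 := by
        rw [hab y0 hy0, hk0]
        field_simp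
        ring
      have hall : ∀ y ∈ X, L.f (hb b • y) = L.f y := by
        intro y hy
        obtain ⟨α', β', -, hab'⟩ := hl.act _ (hbH (j y - j y0))
        have h2 : hb (j y - j y0) • y0 = y := htrans y0 hy0 y hy
        rw [← h2, hcomm _ _ y0 hy0, hab' _ (hHX _ (hbH b) _ hy0), hfix, hab' _ hy0]
      have h3 := hall o hoX
      rw [hab o hoX, hl.f0, mul_zero, zero_add] at h3
      have h4 := hall e heX
      rw [hab e heX, hl.f1, h3, mul_one, add_zero] at h4
      exact h1 h4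
  have hadd : ∀ r b : R, L.f (yv (r + b)) = L.f (yv r) + L.f (yv b) := by
    intro r b
    obtain ⟨β, hβ⟩ := hone b
    have h0 := hβ o hoX
    have h1 : L.f (hb b • o) = L.f (yv b) := by
      refine hF _ (hHX _ (hbH b) _ hoX) b ?_
      rw [hbj b o hoX, hR.j0, zero_add]
    rw [h1, hl.f0, zero_add] at h0
    have h2 := hβ (yv r) (hyX r)
    have h3 : L.f (hb b • yv r) = L.f (yv (r + b)) := by
      refine hF _ (hHX _ (hbH b) _ (hyX r)) (r + b) ?_
      rw [hbj b _ (hyX r), hyj]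
    rw [← h3, h2, h0]
  have hmulu : ∀ (a : Rˣ) (r : R), L.f (yv (a * r)) = L.f (yv a) * L.f (yv r) := by
    intro a r
    obtain ⟨t, htT, htj⟩ := hR.tful a
    obtain ⟨α, β, hα, hab⟩ := hl.act t (hTH htT)
    have h0 := hab o hoX
    rw [hTo t htT, hl.f0, mul_zero, zero_add] at h0
    have h1 := hab e heX
    have h2 : L.f (t • e) = L.f (yv a) := by
      refine hF _ (hHX _ (hTH htT) _ heX) a ?_
      rw [htj e heX, hR.j1, mul_one]
    rw [h2, hl.f1, ← h0, mul_one, add_zero] at h1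
    have h3 := hab (yv r) (hyX r)
    have h4 : L.f (t • yv r) = L.f (yv (a * r)) := by
      refine hF _ (hHX _ (hTH htT) _ (hyX r)) (a * r) ?_
      rw [htj _ (hyX r), hyj]
    rw [h4, ← h0, add_zero, ← h1] at h3
    exact h3
  have hmul : ∀ r s : R, L.f (yv (r * s)) = L.f (yv r) * L.f (yv s) := by
    intro r s
    obtain ⟨a, b, hab⟩ := hR.uni r
    rw [hab, add_mul, hadd, hmulu, hmulu, hadd, add_mul]
  have h1 : L.f (yv 1) = 1 := by
    rw [← hF e heX 1 hR.j1, hl.f1]
  have h0 : L.f (yv 0) = 0 := by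
    rw [← hF o hoX 0 hR.j0, hl.f0]
  refine ⟨{ toFun := fun r => L.f (yv r), map_one' := h1, map_mul' := hmul, map_zero' := h0,
            map_add' := hadd }, ?_, ?_⟩
  · intro k
    obtain ⟨y, hy, hk⟩ := hl.onto k
    refine ⟨j y, ?_⟩
    change L.f (yv (j y)) = k
    rw [hyu y hy, hk]
  · intro y hy
    change L.f y = L.f (yv (j y))
    rw [hyu y hy]

end Pool.Agent.H52.S
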