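import Pool.Agent.H78.S.Targets

/-!
# Theorem S (MP_9d0bb7_lc), row MXL: maximal ideals give lines
-/

set_option autoImplicit false

open Set Pool.Agent.H77.BC Pool.Agent.H78.S
open scoped Pointwise

namespace Pool.Agent.H52.S

theorem pf_MXL (hIDE : T_IDE) (hCTB : T_CTB) (hULF : T_ULF) : T_MXL := by
  intro M U G S _ _ _ _ _ _ hact H X T o e hC R _ j hR I hI
  obtain ⟨hID, -, hInf, hArt⟩ := hIDE U hact H X T o e hC R j hR
  have hIX : U.D {y | y ∈ X ∧ j y ∈ I} := hID I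
  -- the relation
  have hrel : U.D {p : S × S | p.1 ∈ X ∧ p.2 ∈ X ∧ j p.1 - j p.2 ∈ I} := by
    have h1 : U.D {p : S × S | ∃ z : S, (z ∈ X ∧ j z ∈ I) ∧
        (p.2 ∈ X ∧ z ∈ X ∧ p.1 ∈ X ∧ j p.2 + j z = j p.1)} := by
      refine D_exists (p := fun (p : S × S) (z : S) => (z ∈ X ∧ j z ∈ I) ∧
        (p.2 ∈ X ∧ z ∈ X ∧ p.1 ∈ X ∧ j p.2 + j z = j p.1)) ?_
      refine D_and ?_ ?_
      · exact D_subst (p := fun z : S => z ∈ X ∧ j z ∈ I) hIX DFn_snd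
      · exact D_subst (p := fun q : S × S × S =>
          q.1 ∈ X ∧ q.2.1 ∈ X ∧ q.2.2 ∈ X ∧ j q.1 + j q.2.1 = j q.2.2) hR.add
          (f := fun q : (S × S) × S => (q.1.2, q.2, q.1.1))
          (DFn_pair (DFn_comp DFn_snd DFn_fst) (DFn_pair DFn_snd (DFn_comp DFn_fst DFn_fst)))
    have e1 : {p : S × S | p.1 ∈ X ∧ p.2 ∈ X ∧ j p.1 - j p.2 ∈ I} =
        {p : S × S | ∃ z : S, (z ∈ X ∧ j z ∈ I) ∧
        (p.2 ∈ X ∧ z ∈ X ∧ p.1 ∈ X ∧ j p.2 + j z = j p.1)} := by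
      ext p
      constructor
      · rintro ⟨h1, h2, h3⟩
        obtain ⟨z, hz, hjz⟩ := hR.onto (j p.1 - j p.2)
        refine ⟨z, ⟨hz, ?_⟩, h2, hz, h1, ?_⟩
        · rw [hjz]
          exact h3
        · rw [hjz]
          ring
      · rintro ⟨z, ⟨hz, hzI⟩, h2, -, h1, h3⟩
        refine ⟨h1, h2, ?_⟩
        have h4 : j p.1 - j p.2 = j z := by
          rw [← h3]
          ring
        rw [h4]
        exact hzI
    rw [e1]
    exact h1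
  have hm : ∀ a b : R, Ideal.Quotient.mk I a = Ideal.Quotient.mk I b ↔ a - b ∈ I :=
    fun a b => Ideal.Quotient.eq
  have hadd : U.D {p : S × S × S | p.1 ∈ X ∧ p.2.1 ∈ X ∧ p.2.2 ∈ X ∧
      Ideal.Quotient.mk I (j p.1) + Ideal.Quotient.mk I (j p.2.1) =
        Ideal.Quotient.mk I (j p.2.2)} := by
    have h1 : U.D {p : S × S × S | ∃ w : S,
        (p.1 ∈ X ∧ p.2.1 ∈ X ∧ w ∈ X ∧ j p.1 + j p.2.1 = j w) ∧
        (w ∈ X ∧ p.2.2 ∈ X ∧ j w - j p.2.2 ∈ I)} := by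
      refine D_exists (p := fun (p : S × S × S) (w : S) =>
        (p.1 ∈ X ∧ p.2.1 ∈ X ∧ w ∈ X ∧ j p.1 + j p.2.1 = j w) ∧
        (w ∈ X ∧ p.2.2 ∈ X ∧ j w - j p.2.2 ∈ I)) ?_
      refine D_and ?_ ?_
      · exact D_subst (p := fun q : S × S × S =>
          q.1 ∈ X ∧ q.2.1 ∈ X ∧ q.2.2 ∈ X ∧ j q.1 + j q.2.1 = j q.2.2) hR.add
          (f := fun q : (S × S × S) × S => (q.1.1, q.1.2.1, q.2))
          (DFn_pair (DFn_comp DFn_fst DFn_fst)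
            (DFn_pair (DFn_comp DFn_fst (DFn_comp DFn_snd DFn_fst)) DFn_snd))
      · exact D_subst (p := fun q : S × S => q.1 ∈ X ∧ q.2 ∈ X ∧ j q.1 - j q.2 ∈ I) hrel
          (f := fun q : (S × S × S) × S => (q.2, q.1.2.2))
          (DFn_pair DFn_snd (DFn_comp DFn_snd (DFn_comp DFn_snd DFn_fst)))
    have e1 : {p : S × S × S | p.1 ∈ X ∧ p.2.1 ∈ X ∧ p.2.2 ∈ X ∧
      Ideal.Quotient.mk I (j p.1) + Ideal.Quotient.mk I (j p.2.1) =
        Ideal.Quotient.mk I (j p.2.2)} = {p : S × S × S | ∃ w : S,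
        (p.1 ∈ X ∧ p.2.1 ∈ X ∧ w ∈ X ∧ j p.1 + j p.2.1 = j w) ∧
        (w ∈ X ∧ p.2.2 ∈ X ∧ j w - j p.2.2 ∈ I)} := by
      ext p
      constructor
      · rintro ⟨h1, h2, h3, h4⟩
        obtain ⟨w, hw, hjw⟩ := hR.onto (j p.1 + j p.2.1)
        refine ⟨w, ⟨h1, h2, hw, hjw.symm⟩, hw, h3, ?_⟩
        rw [hjw, ← hm, map_add, h4]
      · rintro ⟨w, ⟨h1, h2, hw, h5⟩, -, h3, h4⟩
        refine ⟨h1, h2, h3, ?_⟩
        rw [← map_add, h5, hm]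
        exact h4
    rw [e1]
    exact h1
  have hmul : U.D {p : S × S × S | p.1 ∈ X ∧ p.2.1 ∈ X ∧ p.2.2 ∈ X ∧
      Ideal.Quotient.mk I (j p.1) * Ideal.Quotient.mk I (j p.2.1) =
        Ideal.Quotient.mk I (j p.2.2)} := by
    have h1 : U.D {p : S × S × S | ∃ w : S,
        (p.1 ∈ X ∧ p.2.1 ∈ X ∧ w ∈ X ∧ j p.1 * j p.2.1 = j w) ∧
        (w ∈ X ∧ p.2.2 ∈ X ∧ j w - j p.2.2 ∈ I)} := by
      refine D_exists (p := fun (p : S × S × S) (w : S) =>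
        (p.1 ∈ X ∧ p.2.1 ∈ X ∧ w ∈ X ∧ j p.1 * j p.2.1 = j w) ∧
        (w ∈ X ∧ p.2.2 ∈ X ∧ j w - j p.2.2 ∈ I)) ?_
      refine D_and ?_ ?_
      · exact D_subst (p := fun q : S × S × S =>
          q.1 ∈ X ∧ q.2.1 ∈ X ∧ q.2.2 ∈ X ∧ j q.1 * j q.2.1 = j q.2.2) hR.mul
          (f := fun q : (S × S × S) × S => (q.1.1, q.1.2.1, q.2))
          (DFn_pair (DFn_comp DFn_fst DFn_fst)
            (DFn_pair (DFn_comp DFn_fst (DFn_comp DFn_snd DFn_fst)) DFn_snd))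
      · exact D_subst (p := fun q : S × S => q.1 ∈ X ∧ q.2 ∈ X ∧ j q.1 - j q.2 ∈ I) hrel
          (f := fun q : (S × S × S) × S => (q.2, q.1.2.2))
          (DFn_pair DFn_snd (DFn_comp DFn_snd (DFn_comp DFn_snd DFn_fst)))
    have e1 : {p : S × S × S | p.1 ∈ X ∧ p.2.1 ∈ X ∧ p.2.2 ∈ X ∧
      Ideal.Quotient.mk I (j p.1) * Ideal.Quotient.mk I (j p.2.1) =
        Ideal.Quotient.mk I (j p.2.2)} = {p : S × S × S | ∃ w : S,
        (p.1 ∈ X ∧ p.2.1 ∈ X ∧ w ∈ X ∧ j p.1 * j p.2.1 = j w) ∧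
        (w ∈ X ∧ p.2.2 ∈ X ∧ j w - j p.2.2 ∈ I)} := by
      ext p
      constructor
      · rintro ⟨h1, h2, h3, h4⟩
        obtain ⟨w, hw, hjw⟩ := hR.onto (j p.1 * j p.2.1)
        refine ⟨w, ⟨h1, h2, hw, hjw.symm⟩, hw, h3, ?_⟩
        rw [hjw, ← hm, map_mul, h4]
      · rintro ⟨w, ⟨h1, h2, hw, h5⟩, -, h3, h4⟩
        refine ⟨h1, h2, h3, ?_⟩
        rw [← map_mul, h5, hm]
        exact h4
    rw [e1]
    exact h1
  have hRel : Rel X (fun y : S => Ideal.Quotient.mk I (j y)) =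
      {p : S × S | p.1 ∈ X ∧ p.2 ∈ X ∧ j p.1 - j p.2 ∈ I} := by
    ext p
    constructor
    · rintro ⟨h1, h2, h3⟩
      exact ⟨h1, h2, (hm _ _).1 h3⟩
    · rintro ⟨h1, h2, h3⟩
      exact ⟨h1, h2, (hm _ _).2 h3⟩
  letI : Field (R ⧸ I) := Ideal.Quotient.field I
  have hunit : ∀ a : Rˣ, (Ideal.Quotient.mk I (a : R) : R ⧸ I) ≠ 0 := by
    intro a h
    have h1 : (a : R) ∈ I := Ideal.Quotient.eq_zero_iff_mem.1 h
    exact hI.ne_top (Ideal.eq_top_of_isUnit_mem I h1 a.isUnit)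
  refine ⟨{ K := R ⧸ I, fld := Ideal.Quotient.field I, f := fun y => Ideal.Quotient.mk I (j y),
            line := ?_, eq := hRel.symm }⟩
  refine { inf := hInf I hI.ne_top, rel := ?_, add := hadd, mul := hmul, onto := ?_, f0 := ?_,
           f1 := ?_, act := ?_, full := ?_ }
  · rw [hRel]
    exact hrel
  · intro k
    obtain ⟨r, rfl⟩ := Ideal.Quotient.mk_surjective k
    obtain ⟨y, hy, hjy⟩ := hR.onto r
    exact ⟨y, hy, by rw [hjy]⟩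
  · change Ideal.Quotient.mk I (j o) = 0
    rw [hR.j0, map_zero]
  · change Ideal.Quotient.mk I (j e) = 1
    rw [hR.j1, map_one]
  · intro h hh
    obtain ⟨a, b, hab⟩ := hR.act h hh
    refine ⟨Ideal.Quotient.mk I (a : R), Ideal.Quotient.mk I b, hunit a, fun y hy => ?_⟩
    change Ideal.Quotient.mk I (j (h • y)) = _
    rw [hab y hy, map_add, map_mul]
  · intro a b ha
    obtain ⟨a', rfl⟩ := Ideal.Quotient.mk_surjective a
    obtain ⟨b', rfl⟩ := Ideal.Quotient.mk_surjective b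
    have ha' : a' ∉ I := fun h => ha (Ideal.Quotient.eq_zero_iff_mem.2 h)
    obtain ⟨u, hu⟩ := hULF R I hI a' ha'
    obtain ⟨h, hh, hj⟩ := hR.full u b'
    refine ⟨h, hh, fun y hy => ?_⟩
    change Ideal.Quotient.mk I (j (h • y)) = _
    rw [hj y hy, map_add, map_mul, (hm (u : R) a').2 hu]

end Pool.Agent.H52.S
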