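import Pool.Agent.H78.S.Targets

/-!
# Theorem S (MP_9d0bb7_lc), row RGV: the ring of a line
-/

set_option autoImplicit false

open Set Pool.Agent.H77.BC Pool.Agent.H78.S
open scoped Pointwise

namespace Pool.Agent.H52.S

/-- the set of the elements of `V` which move `o` to the orbit `Orb T e` is big in `V` -/
theorem rgv_big {M : Type} (U : RU M) {G S : Type} [Group G] [MulAction G S] [Cod M G]
    [Cod M S] [DG U G] [Ful U S] (hact : DFn U (fun p : G × S => p.1 • p.2))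
    (X O : Set S) (o : S) (V : Subgroup G) (hVD : U.D (V : Set G)) (hOD : U.D O)
    (hOX : O ⊆ X) (hOR : U.R O = U.R X) (hOne : O.Nonempty)
    (hVX : ∀ v ∈ V, v • o ∈ X) (hVt : ∀ y ∈ X, ∃ v ∈ V, v • o = y)
    (hVf : ∀ v ∈ V, v • o = o → v = 1) :
    Big U (V : Set G) {v | v ∈ V ∧ v • o ∈ O} := by
  have hB := l_RKB U
  have hf : DFn U (fun g : G => g • o) :=
    DFn_comp (g := fun p : G × S => p.1 • p.2) hact (DFn_pair DFn_id (DFn_const o))
  have hinj : InjOn (fun g : G => g • o) (V : Set G) := by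
    intro v hv w hw hvw
    have h1 : (w⁻¹ * v) • o = o := by
      rw [mul_smul, show v • o = w • o from hvw, inv_smul_smul]
    have h2 := hVf _ (V.mul_mem (V.inv_mem hw) hv) h1
    exact (inv_mul_eq_one.1 h2).symm
  have hYD : U.D {v : G | v ∈ V ∧ v • o ∈ O} :=
    D_and (p := fun v : G => v ∈ V) (q := fun v : G => v • o ∈ O) hVD (DFn_preim hf hOD)
  have hYne : {v : G | v ∈ V ∧ v • o ∈ O}.Nonempty := by
    obtain ⟨y, hy⟩ := hOne
    obtain ⟨v, hv, hvy⟩ := hVt y (hOX hy)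
    exact ⟨v, hv, by rw [hvy]; exact hy⟩
  refine ⟨{v | v ∈ V ∧ v • o ∈ O}, hYD, hYne, fun v hv => hv.1, fun v hv => hv, ?_⟩
  have h1 := hB.inj hVD hf ⟨1, V.one_mem⟩ hinj
  have h2 := hB.inj hYD hf hYne (hinj.mono fun v hv => hv.1)
  have e1 : (fun g : G => g • o) '' (V : Set G) = X := by
    ext y
    constructor
    · rintro ⟨v, hv, rfl⟩
      exact hVX v hv
    · intro hy
      obtain ⟨v, hv, hvy⟩ := hVt y hy
      exact ⟨v, hv, hvy⟩
  have e2 : (fun g : G => g • o) '' {v : G | v ∈ V ∧ v • o ∈ O} = O := by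
    ext y
    constructor
    · rintro ⟨v, hv, rfl⟩
      exact hv.2
    · intro hy
      obtain ⟨v, hv, hvy⟩ := hVt y (hOX hy)
      exact ⟨v, ⟨hv, by rw [hvy]; exact hy⟩, hvy⟩
  rw [e1] at h1
  rw [e2] at h2
  rw [← h1, ← h2, hOR]

/-- multiplication by a unit meets the orbit -/
theorem rgv_meet {M : Type} (U : RU M) {S R : Type} [Cod M S] [Ful U S] [CommRing R] (j : S → R)
    (X O : Set S) (hXD : U.D X) (hirr : Irr U X) (hOD : U.D O) (hOX : O ⊆ X)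
    (hOR : U.R O = U.R X) (hOne : O.Nonempty) (hinj : InjOn j X) (honto : ∀ r : R, ∃ y ∈ X, j y = r)
    (hmul : U.D {p : S × S × S | p.1 ∈ X ∧ p.2.1 ∈ X ∧ p.2.2 ∈ X ∧ j p.1 * j p.2.1 = j p.2.2})
    (a : Rˣ) : ∃ y ∈ O, ∃ z ∈ O, j z = a * j y := by
  classical
  have hB := l_RKB U
  choose yv hyX hyj using honto
  have hyu : ∀ y ∈ X, yv (j y) = y := fun y hy => hinj (hyX _) hy (hyj _)
  let f : S → S := fun y => if y ∈ X then yv (a * j y) else y
  have hfX : ∀ y ∈ X, f y = yv (a * j y) := fun y hy => if_pos hy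
  have hf : DFn U f := by
    have h1 : U.D {p : S × S | (yv a ∈ X ∧ p.1 ∈ X ∧ p.2 ∈ X ∧ j (yv a) * j p.1 = j p.2) ∨
        (¬ p.1 ∈ X ∧ p.2 = p.1)} := by
      refine D_or ?_ (D_and (D_not ?_) (D_eqf DFn_snd DFn_fst))
      · exact D_subst (p := fun q : S × S × S =>
          q.1 ∈ X ∧ q.2.1 ∈ X ∧ q.2.2 ∈ X ∧ j q.1 * j q.2.1 = j q.2.2) hmul
          (f := fun p : S × S => (yv a, p.1, p.2))
          (DFn_pair (DFn_const _) (DFn_pair DFn_fst DFn_snd))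
      · exact D_subst (p := fun q : S => q ∈ X) hXD DFn_fst
    unfold DFn
    have e1 : {p : S × S | p.2 = f p.1} =
        {p : S × S | (yv a ∈ X ∧ p.1 ∈ X ∧ p.2 ∈ X ∧ j (yv a) * j p.1 = j p.2) ∨
        (¬ p.1 ∈ X ∧ p.2 = p.1)} := by
      ext p
      constructor
      · intro h
        have h' : p.2 = f p.1 := h
        by_cases hp : p.1 ∈ X
        · rw [hfX _ hp] at h'
          refine Or.inl ⟨hyX _, hp, ?_, ?_⟩
          · rw [h']
            exact hyX _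
          · rw [h', hyj, hyj]
        · have h2 : f p.1 = p.1 := if_neg hp
          rw [h2] at h'
          exact Or.inr ⟨hp, h'⟩
      · rintro (⟨-, h1, h2, h3⟩ | ⟨h1, h2⟩)
        · change p.2 = f p.1
          rw [hfX _ h1]
          refine hinj h2 (hyX _) ?_
          rw [hyj, ← h3, hyj]
        · change p.2 = f p.1
          have h3 : f p.1 = p.1 := if_neg h1
          rw [h3, h2]
    rwa [e1]
  have hfi : InjOn f O := by
    intro y hy z hz hyz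
    have h1 : yv (a * j y) = yv (a * j z) := by
      rw [← hfX y (hOX hy), ← hfX z (hOX hz)]
      exact hyz
    have h2 : (a : R) * j y = a * j z := by
      rw [← hyj (a * j y), h1, hyj]
    exact hinj (hOX hy) (hOX hz) ((Units.mul_right_inj a).1 h2)
  have hAD : U.D (f '' O) := DFn_image hf hOD
  have hAR := hB.inj hOD hf hOne hfi
  have hAX : f '' O ⊆ X := by
    rintro _ ⟨y, hy, rfl⟩
    rw [hfX y (hOX hy)]
    exact hyX _
  have hBA : Big U X (f '' O) :=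
    ⟨f '' O, hAD, hOne.image f, hAX, Subset.rfl, by rw [hAR, hOR]⟩
  have hBO : Big U X O := ⟨O, hOD, hOne, hOX, Subset.rfl, by rw [hOR]⟩
  obtain ⟨z, ⟨y, hy, hyz⟩, hz⟩ := hirr.2.2 _ _ hBA hBO
  refine ⟨y, hy, z, hz, ?_⟩
  rw [← hyz, hfX y (hOX hy), hyj]

theorem pf_RGV (hRGX : T_RGX) (hCTB : T_CTB) (hIRG : T_IRG) (_hBGA : T_BGA) (_hORM : T_ORM) :
    T_RGV := by
  intro M U G S _ _ _ _ _ _ hact H X T o e hC hcomT hfa V hVH hVD hcomV hVn hVt hVf hVC hTF hprod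
  have hctb := hCTB U hact H X T o e hC
  have hoX : o ∈ X := hctb.1
  have hXD : U.D X := hctb.2.1
  have hirr : Irr U X := hctb.2.2.1
  have hTD : U.D (T : Set G) := hctb.2.2.2.2.1
  have hTH : T ≤ H := hctb.2.2.2.2.2.2.1
  have hTo : ∀ t ∈ T, t • o = o := hctb.2.2.2.2.2.2.2.1
  have hHX : ∀ h ∈ H, ∀ y ∈ X, h • y ∈ X := hctb.2.2.2.2.2.2.2.2.1
  have hOD : U.D (Orb T e) := hctb.2.2.2.2.2.2.2.2.2.2.1
  have hOX : Orb T e ⊆ X := hctb.2.2.2.2.2.2.2.2.2.2.2.1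
  have hOR : U.R (Orb T e) = U.R X := hctb.2.2.2.2.2.2.2.2.2.2.2.2.1
  have heX : e ∈ X := hC.mem
  have heO : e ∈ Orb T e := ⟨1, T.one_mem, (one_smul G e).symm⟩
  have hVX : ∀ v ∈ V, v • o ∈ X := fun v hv => hHX v (hVH hv) o hoX
  have hVo : Orb V o = X := by
    ext y
    constructor
    · rintro ⟨v, hv, rfl⟩
      exact hVX v hv
    · intro hy
      obtain ⟨v, hv, hvy⟩ := hVt y hy
      exact ⟨v, hv, hvy.symm⟩
  -- sums
  have hbig := rgv_big U hact X (Orb T e) o V hVD hOD hOX hOR ⟨e, heO⟩ hVX hVt hVf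
  have hsum : ∀ y ∈ X, ∃ t ∈ T, ∃ t' ∈ T, ∃ v ∈ V, v • o = t • e ∧ y = v • (t' • e) := by
    intro y hy
    obtain ⟨v, hv, hvy⟩ := hVt y hy
    obtain ⟨a, ⟨haV, t, ht, hat⟩, b, ⟨hbV, t', ht', hbt⟩, hab⟩ :=
      ((hIRG U V hVC).2 _ hbig).2.2.2 _ hbig v hv
    exact ⟨t, ht, t', ht', a, haV, hat, by rw [← hvy, hab, mul_smul, hbt]⟩
  obtain ⟨R, hRc, j, hji, hjs, hj0, hj1, hjV, hjT⟩ :=
    hRGX V T o e hcomV hcomT (fun t ht v hv => hVn t (hTH ht) v hv) hTo hVf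
      (by rw [hVo]; exact heX) (by rw [hVo]; exact hsum)
  rw [hVo] at hji hjs hjV hjT
  -- membership in products
  have hTX : ∀ t ∈ T, ∀ y ∈ X, t • y ∈ X := fun t ht y hy => hHX t (hTH ht) y hy
  have hVXX : ∀ v ∈ V, ∀ y ∈ X, v • y ∈ X := fun v hv y hy => hHX v (hVH hv) y hy
  have sG : ∀ {α : Type} [Cod M α] [Ful U α] {f : α → G} {g : α → S}, DFn U f → DFn U g →
      DFn U (fun a => f a • g a) := fun hf hg =>
    DFn_comp (g := fun p : G × S => p.1 • p.2) hact (DFn_pair hf hg)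
  have hadd : U.D {p : S × S × S | p.1 ∈ X ∧ p.2.1 ∈ X ∧ p.2.2 ∈ X ∧
      j p.1 + j p.2.1 = j p.2.2} := by
    have h1 : U.D {p : S × S × S | ∃ v : G, v ∈ V ∧ v • o = p.1 ∧ p.2.1 ∈ X ∧
        p.2.2 = v • p.2.1} := by
      refine D_exists (p := fun (p : S × S × S) (v : G) => v ∈ V ∧ v • o = p.1 ∧ p.2.1 ∈ X ∧
        p.2.2 = v • p.2.1) ?_
      refine D_and ?_ (D_and ?_ (D_and ?_ ?_))
      · exact D_subst (p := fun v : G => v ∈ V) hVD DFn_snd
      · exact D_eqf (sG DFn_snd (DFn_const o)) (DFn_comp DFn_fst DFn_fst)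
      · exact D_subst (p := fun y : S => y ∈ X) hXD
          (f := fun q : (S × S × S) × G => q.1.2.1) (DFn_comp DFn_fst (DFn_comp DFn_snd DFn_fst))
      · exact D_eqf (DFn_comp DFn_snd (DFn_comp DFn_snd DFn_fst))
          (sG DFn_snd (DFn_comp DFn_fst (DFn_comp DFn_snd DFn_fst)))
    have e1 : {p : S × S × S | p.1 ∈ X ∧ p.2.1 ∈ X ∧ p.2.2 ∈ X ∧ j p.1 + j p.2.1 = j p.2.2} =
        {p : S × S × S | ∃ v : G, v ∈ V ∧ v • o = p.1 ∧ p.2.1 ∈ X ∧ p.2.2 = v • p.2.1} := by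
      ext p
      constructor
      · rintro ⟨h1, h2, h3, h4⟩
        obtain ⟨v, hv, hvp⟩ := hVt _ h1
        refine ⟨v, hv, hvp, h2, ?_⟩
        refine hji h3 (hVXX v hv _ h2) ?_
        rw [hjV v hv _ h2, hvp, ← h4, add_comm]
      · rintro ⟨v, hv, hvp, h2, h3⟩
        refine ⟨hvp ▸ hVX v hv, h2, ?_, ?_⟩
        · rw [h3]
          exact hVXX v hv _ h2
        · rw [h3, hjV v hv _ h2, hvp, add_comm]
    rwa [e1]
  have hmul : U.D {p : S × S × S | p.1 ∈ X ∧ p.2.1 ∈ X ∧ p.2.2 ∈ X ∧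
      j p.1 * j p.2.1 = j p.2.2} := by
    have h1 : U.D {p : S × S × S | ∃ q : G × G × G × G, q.1 ∈ T ∧ q.2.1 ∈ T ∧ q.2.2.1 ∈ V ∧
        q.2.2.2 ∈ V ∧ q.2.2.1 • o = q.1 • e ∧ p.1 = q.2.2.1 • (q.2.1 • e) ∧ p.2.1 ∈ X ∧
        q.2.2.2 • o = q.1 • p.2.1 ∧ p.2.2 = q.2.2.2 • (q.2.1 • p.2.1)} := by
      refine D_exists (p := fun (p : S × S × S) (q : G × G × G × G) => q.1 ∈ T ∧ q.2.1 ∈ T ∧
        q.2.2.1 ∈ V ∧
        q.2.2.2 ∈ V ∧ q.2.2.1 • o = q.1 • e ∧ p.1 = q.2.2.1 • (q.2.1 • e) ∧ p.2.1 ∈ X ∧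
        q.2.2.2 • o = q.1 • p.2.1 ∧ p.2.2 = q.2.2.2 • (q.2.1 • p.2.1)) ?_
      have c1 : DFn U (fun z : (S × S × S) × (G × G × G × G) => z.2.1) :=
        DFn_comp DFn_fst DFn_snd
      have c2' : DFn U (fun z : (S × S × S) × (G × G × G × G) => z.2.2) :=
        DFn_comp DFn_snd DFn_snd
      have c2 : DFn U (fun z : (S × S × S) × (G × G × G × G) => z.2.2.1) :=
        DFn_comp DFn_fst c2'
      have c3' : DFn U (fun z : (S × S × S) × (G × G × G × G) => z.2.2.2) :=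
        DFn_comp DFn_snd c2'
      have c3 : DFn U (fun z : (S × S × S) × (G × G × G × G) => z.2.2.2.1) :=
        DFn_comp DFn_fst c3'
      have c4 : DFn U (fun z : (S × S × S) × (G × G × G × G) => z.2.2.2.2) :=
        DFn_comp DFn_snd c3'
      have d1 : DFn U (fun z : (S × S × S) × (G × G × G × G) => z.1.1) :=
        DFn_comp DFn_fst DFn_fst
      have d2' : DFn U (fun z : (S × S × S) × (G × G × G × G) => z.1.2) :=
        DFn_comp DFn_snd DFn_fst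
      have d2 : DFn U (fun z : (S × S × S) × (G × G × G × G) => z.1.2.1) :=
        DFn_comp DFn_fst d2'
      have d3 : DFn U (fun z : (S × S × S) × (G × G × G × G) => z.1.2.2) :=
        DFn_comp DFn_snd d2'
      refine D_and ?_ (D_and ?_ (D_and ?_ (D_and ?_ (D_and ?_ (D_and ?_ (D_and ?_
        (D_and ?_ ?_)))))))
      · exact D_subst (p := fun v : G => v ∈ T) hTD c1
      · exact D_subst (p := fun v : G => v ∈ T) hTD c2
      · exact D_subst (p := fun v : G => v ∈ V) hVD c3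
      · exact D_subst (p := fun v : G => v ∈ V) hVD c4
      · exact D_eqf (sG c3 (DFn_const o)) (sG c1 (DFn_const e))
      · exact D_eqf d1 (sG c3 (sG c2 (DFn_const e)))
      · exact D_subst (p := fun y : S => y ∈ X) hXD d2
      · exact D_eqf (sG c4 (DFn_const o)) (sG c1 d2)
      · exact D_eqf d3 (sG c4 (sG c2 d2))
    have key : ∀ t ∈ T, ∀ t' ∈ T, ∀ v ∈ V, ∀ v' ∈ V, v • o = t • e → ∀ z ∈ X,
        v' • o = t • z → j (v' • (t' • z)) = j (v • (t' • e)) * j z := by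
      intro t ht t' ht' v hv v' hv' h1 z hz h2
      obtain ⟨a, ha1, ha2⟩ := hjT t ht
      obtain ⟨a', ha1', ha2'⟩ := hjT t' ht'
      rw [hjV v' hv' _ (hTX t' ht' z hz), h2, ha2' z hz, ha2 z hz,
        hjV v hv _ (hTX t' ht' e heX), h1, ha1', ha1]
      ring
    have e1 : {p : S × S × S | p.1 ∈ X ∧ p.2.1 ∈ X ∧ p.2.2 ∈ X ∧ j p.1 * j p.2.1 = j p.2.2} =
        {p : S × S × S | ∃ q : G × G × G × G, q.1 ∈ T ∧ q.2.1 ∈ T ∧ q.2.2.1 ∈ V ∧
        q.2.2.2 ∈ V ∧ q.2.2.1 • o = q.1 • e ∧ p.1 = q.2.2.1 • (q.2.1 • e) ∧ p.2.1 ∈ X ∧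
        q.2.2.2 • o = q.1 • p.2.1 ∧ p.2.2 = q.2.2.2 • (q.2.1 • p.2.1)} := by
      ext p
      constructor
      · rintro ⟨h1, h2, h3, h4⟩
        obtain ⟨t, ht, t', ht', v, hv, hvt, hpv⟩ := hsum _ h1
        obtain ⟨v', hv', hvp'⟩ := hVt _ (hTX t ht _ h2)
        refine ⟨(t, t', v, v'), ht, ht', hv, hv', hvt, hpv, h2, hvp', ?_⟩
        refine hji h3 (hVXX v' hv' _ (hTX t' ht' _ h2)) ?_
        rw [key t ht t' ht' v hv v' hv' hvt _ h2 hvp', ← hpv, h4]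
      · rintro ⟨⟨t, t', v, v'⟩, ht, ht', hv, hv', hvt, hpv, h2, hvp', h3⟩
        change t ∈ T at ht
        change t' ∈ T at ht'
        change v ∈ V at hv
        change v' ∈ V at hv'
        change v • o = t • e at hvt
        change p.1 = v • (t' • e) at hpv
        change v' • o = t • p.2.1 at hvp'
        change p.2.2 = v' • (t' • p.2.1) at h3
        refine ⟨?_, h2, ?_, ?_⟩
        · rw [hpv]
          exact hVXX v hv _ (hTX t' ht' _ heX)
        · rw [h3]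
          exact hVXX v' hv' _ (hTX t' ht' _ h2)
        · rw [h3, key t ht t' ht' v hv v' hv' hvt _ h2 hvp', hpv]
    rwa [e1]
  have htful : ∀ a : Rˣ, ∃ t ∈ T, ∀ y ∈ X, j (t • y) = a * j y := by
    intro a
    obtain ⟨y, ⟨t, ht, hyt⟩, z, ⟨t', ht', hzt⟩, hyz⟩ :=
      rgv_meet U j X (Orb T e) hXD hirr hOD hOX hOR ⟨e, heO⟩ hji hjs hmul a
    obtain ⟨b, hb1, hb2⟩ := hjT t ht
    obtain ⟨b', hb1', hb2'⟩ := hjT t' ht'
    rw [hzt, hyt, hb1', hb1] at hyz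
    refine ⟨t' * t⁻¹, T.mul_mem ht' (T.inv_mem ht), fun x hx => ?_⟩
    have h1 : t⁻¹ • x ∈ X := hTX _ (T.inv_mem ht) x hx
    have h2 := hb2 _ h1
    rw [smul_inv_smul] at h2
    rw [mul_smul, hb2' _ h1, hyz, h2]
    ring
  refine ⟨R, hRc, j, ?_⟩
  refine { inj := hji, onto := hjs, j0 := hj0, j1 := hj1, act := ?_, full := ?_, tact := ?_,
           tful := htful, add := hadd, mul := hmul, uni := ?_ }
  · intro h hh
    obtain ⟨v, hv, t, ht, rfl⟩ := hprod h hh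
    obtain ⟨a, ha1, ha2⟩ := hjT t ht
    refine ⟨a, j (v • o), fun y hy => ?_⟩
    rw [mul_smul, hjV v hv _ (hTX t ht y hy), ha2 y hy]
  · intro a b
    obtain ⟨t, ht, htj⟩ := htful a
    obtain ⟨y, hy, hyb⟩ := hjs b
    obtain ⟨v, hv, hvy⟩ := hVt y hy
    refine ⟨v * t, H.mul_mem (hVH hv) (hTH ht), fun z hz => ?_⟩
    rw [mul_smul, hjV v hv _ (hTX t ht z hz), htj z hz, hvy, hyb]
  · intro t ht
    obtain ⟨a, -, ha2⟩ := hjT t ht
    exact ⟨a, ha2⟩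
  · intro r
    obtain ⟨y, hy, hyr⟩ := hjs r
    obtain ⟨t, ht, t', ht', v, hv, hvt, hpv⟩ := hsum y hy
    obtain ⟨a, ha1, -⟩ := hjT t ht
    obtain ⟨a', ha1', -⟩ := hjT t' ht'
    refine ⟨a', a, ?_⟩
    rw [← hyr, hpv, hjV v hv _ (hTX t' ht' e heX), hvt, ha1, ha1']

end Pool.Agent.H52.S
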