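import Pool.Agent.H78.S.Targets

/-!
# Theorem S (MP_9d0bb7_lc), row RIN: the lines separate points
-/

set_option autoImplicit false

open Set Pool.Agent.H77.BC Pool.Agent.H78.S
open scoped Pointwise

namespace Pool.Agent.H52.S

theorem pf_RIN (hCTI : T_CTI) (hREG : T_REG) (hRGV : T_RGV) (hIDE : T_IDE) (hMXL : T_MXL)
    (hLIM : T_LIM) (hCTB : T_CTB) (hLNK : T_LNK) : T_RIN := by
  intro M U G S _ _ _ _ _ _ hact H X T o e hC hcom hfa hfin y hy z hz hyz
  have hctb := hCTB U hact H X T o e hC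
  have hTH : T ≤ H := hctb.2.2.2.2.2.2.1
  have hHX : ∀ h ∈ H, ∀ y ∈ X, h • y ∈ X := hctb.2.2.2.2.2.2.2.2.1
  have heX : e ∈ X := hC.mem
  obtain ⟨V, hVH, hVD, hVc, hVn, hVd⟩ := hCTI U hact H X T o e hC hcom
  obtain ⟨hVt, hVf, hVC, hTF, hprod⟩ := hREG U hact H X T o e hC hcom hfa V hVH hVD hVc hVn hVd
  obtain ⟨R, hRc, j, hR⟩ :=
    hRGV U hact H X T o e hC hcom hfa V hVH hVD hVc hVn hVt hVf hVC hTF hprod
  obtain ⟨-, hId, -, -⟩ := hIDE U hact H X T o e hC R j hR
  have hmax : ∀ I : Ideal R, I.IsMaximal → j y - j z ∈ I := by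
    intro I hI
    exact (hyz _ (hMXL U hact H X T o e hC R j hR I hI)).2.2
  -- the Jacobson radical is finite
  have hJ : ((Ideal.jacobson (⊥ : Ideal R) : Ideal R) : Set R).Finite := by
    refine (hfin.image (fun t : G => j (t • e) - 1)).subset ?_
    intro a ha
    have hu : IsUnit (a * 1 + 1) := Ideal.mem_jacobson_bot.1 ha 1
    obtain ⟨u, hu⟩ := hu
    obtain ⟨t, ht, htj⟩ := hR.tful u
    have hte : j (t • e) = 1 + a := by
      rw [htj e heX, hu, hR.j1]
      ring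
    refine ⟨t, ⟨ht, ?_⟩, ?_⟩
    · rintro E ⟨L⟩
      obtain ⟨φ, hφs, hφ⟩ := hLIM U hact H X T o e hC R j hR E L
      have hk := (hLNK U hact H X T o e hC E L).2.2.1 t
      rw [hk]
      refine ⟨ht, ?_⟩
      have hker : (RingHom.ker φ).IsMaximal := RingHom.ker_isMaximal_of_surjective φ hφs
      have ha0 : φ a = 0 := by
        have h1 : a ∈ RingHom.ker φ := by
          have h2 := (Ideal.mem_jacobson_iff (I := (⊥ : Ideal R))).1 ha
          have h3 : (Ideal.jacobson (⊥ : Ideal R)) ≤ RingHom.ker φ :=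
            sInf_le ⟨bot_le, hker⟩
          exact h3 ha
        exact (RingHom.mem_ker).1 h1
      rw [hφ _ (hHX t (hTH ht) e heX), hte, map_add, map_one, ha0, add_zero]
    · change j (t • e) - 1 = a
      rw [hte]
      ring
  have hJ0 := hId _ hJ
  have hr : j y - j z ∈ Ideal.jacobson (⊥ : Ideal R) := by
    refine (Submodule.mem_sInf).2 ?_
    rintro I ⟨-, hI⟩
    exact hmax I hI
  rw [hJ0] at hr
  exact hR.inj hy hz (sub_eq_zero.1 hr)

end Pool.Agent.H52.S
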